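import Mathlib

set_option autoImplicit false

/-!
MP_2c0ed3_al. For an Engel Lie algebra `A` and `a` in `A`: is `a ∈ L(A)` equivalent to
`R_a ∈ L(A^*)`? The implication from right to left holds in every Lie algebra; the implication
from left to right fails over every field, already for a metabelian locally nilpotent algebra.
-/

namespace Pool.Agent.Results.MP_2c0ed3_al.EngelRadical

universe u v

/-! ### Definitions: associative algebras -/

section Assoc

variable (F : Type u) [Field F] {E : Type v} [Ring E] [Algebra F E]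

/-- The subalgebra `S` of `E` is nilpotent: for some `n ≥ 1` every product of `n` elements of `S`
is zero. -/
def IsNilpotentAlg (S : NonUnitalSubalgebra F E) : Prop :=
  ∃ n : ℕ, 1 ≤ n ∧ ∀ l : List E, (∀ x ∈ l, x ∈ S) → l.length = n → l.prod = 0

/-- `I` is a two-sided ideal of the algebra `S` (a subalgebra of `E`) and every finitely generated
subalgebra of `I` is nilpotent. -/
def IsLocallyNilpotentIdeal (S : NonUnitalSubalgebra F E) (I : Submodule F E) : Prop :=
  (∀ a ∈ I, a ∈ S) ∧ (∀ x ∈ S, ∀ a ∈ I, x * a ∈ I ∧ a * x ∈ I) ∧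
    ∀ s : Finset E, (∀ x ∈ s, x ∈ I) → IsNilpotentAlg F (NonUnitalAlgebra.adjoin F (s : Set E))

/-- The locally nilpotent radical `L(S)` of the associative algebra `S`: the sum of all locally
nilpotent ideals of `S`. -/
def assocRadical (S : NonUnitalSubalgebra F E) : Submodule F E :=
  sSup {I | IsLocallyNilpotentIdeal F S I}

end Assoc

/-! ### Definitions: Lie algebras -/

section Lie

/-- The Engel condition: for all `x, y` there is `n ≥ 1` with `[...[[y,x],x],...,x] = 0` (`n`
brackets with `x`). -/
def IsEngel (A : Type v) [LieRing A] : Prop :=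
  ∀ x y : A, ∃ n : ℕ, 1 ≤ n ∧ (fun z : A => ⁅z, x⁆)^[n] y = 0

variable (F : Type u) [Field F] (A : Type v) [LieRing A] [LieAlgebra F A]

/-- Every finitely generated subalgebra of the Lie algebra `A` is nilpotent. -/
def IsLocallyNilpotentLie : Prop :=
  ∀ s : Finset A, LieRing.IsNilpotent (LieSubalgebra.lieSpan F A (s : Set A))

/-- The locally nilpotent radical `L(A)` of the Lie algebra `A`: the sum of all locally nilpotent
ideals. -/
def lieRadical : LieIdeal F A := sSup {I : LieIdeal F A | IsLocallyNilpotentLie F I}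

variable {A} in
/-- Right multiplication `R_a : x ↦ [x, a]`. -/
def R (a : A) : Module.End F A where
  toFun x := ⁅x, a⁆
  map_add' x y := add_lie x y a
  map_smul' c x := smul_lie c x a

/-- The multiplication algebra `A^*`: the associative subalgebra (without adjoined identity) of
`End_F(A)` generated by all `R_a`. -/
def multAlg : NonUnitalSubalgebra F (Module.End F A) :=
  NonUnitalAlgebra.adjoin F (Set.range (R F : A → Module.End F A))

variable {A} in
/-- `R_a` lies in the locally nilpotent radical `L(A^*)` of the multiplication algebra `A^*`. -/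
def InRadicalOfMultAlg (a : A) : Prop := R F a ∈ assocRadical F (multAlg F A)

end Lie

/-! ### Words in associative algebras -/

section Words

variable {F : Type u} [Field F] {E : Type v} [Ring E] [Algebra F E]

/-- all words of length `N` in `s` vanish -/
def WNil {E : Type v} [Ring E] (s : Set E) (N : ℕ) : Prop :=
  ∀ l : List E, (∀ x ∈ l, x ∈ s) → l.length = N → l.prod = 0

omit [Field F] [Algebra F E] in
lemma WNil.ge {s : Set E} {N : ℕ} (h : WNil s N) {l : List E} (hl : ∀ x ∈ l, x ∈ s)
    (hN : N ≤ l.length) : l.prod = 0 := by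
  rw [← List.take_append_drop N l, List.prod_append,
    h (l.take N) (fun x hx => hl x (List.mem_of_mem_take hx)) (by simp [hN]), zero_mul]

/-- span of the long words -/
def M (F : Type u) [Field F] {E : Type v} [Ring E] [Algebra F E] (s : Set E) (k : ℕ) :
    Submodule F E :=
  Submodule.span F {z | ∃ l : List E, (∀ x ∈ l, x ∈ s) ∧ k ≤ l.length ∧ z = l.prod}

lemma M_mul {s : Set E} {j k : ℕ} {y z : E} (hy : y ∈ M F s j) (hz : z ∈ M F s k) :
    y * z ∈ M F s (j + k) := by
  have h : M F s j * M F s k ≤ M F s (j + k) := by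
    unfold M
    rw [Submodule.span_mul_span]
    apply Submodule.span_mono
    rintro _ ⟨_, ⟨l, hl, hj, rfl⟩, _, ⟨l', hl', hk, rfl⟩, rfl⟩
    refine ⟨l ++ l', ?_, ?_, ?_⟩
    · intro x hx
      rcases List.mem_append.1 hx with h | h
      · exact hl x h
      · exact hl' x h
    · rw [List.length_append]; omega
    · simp only [List.prod_append]
  exact h (Submodule.mul_mem_mul hy hz)

lemma M_anti {s : Set E} {j k : ℕ} (h : j ≤ k) : M F s k ≤ M F s j := by
  apply Submodule.span_mono
  rintro _ ⟨l, hl, hk, rfl⟩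
  exact ⟨l, hl, h.trans hk, rfl⟩

lemma mem_M_of_adjoin {s : Set E} {x : E} (hx : x ∈ NonUnitalAlgebra.adjoin F s) :
    x ∈ M F s 1 := by
  induction hx using NonUnitalAlgebra.adjoin_induction with
  | mem x hx =>
    refine Submodule.subset_span ⟨[x], ?_, by simp, by simp⟩
    intro y hy
    rw [List.mem_singleton] at hy
    rw [hy]; exact hx
  | add x y _ _ hx hy => exact Submodule.add_mem _ hx hy
  | zero => exact Submodule.zero_mem _
  | mul x y _ _ hx hy => exact M_anti (by norm_num) (M_mul hx hy)
  | smul r x _ hx => exact Submodule.smul_mem _ _ hx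

lemma prod_mem_M {s : Set E} (l : List E) (hl : ∀ x ∈ l, x ∈ NonUnitalAlgebra.adjoin F s) :
    l.prod ∈ M F s l.length := by
  induction l with
  | nil => exact Submodule.subset_span ⟨[], by simp, by simp, rfl⟩
  | cons a l ih =>
    rw [List.prod_cons, List.length_cons, add_comm]
    exact M_mul (mem_M_of_adjoin (hl a (by simp))) (ih fun x hx => hl x (by simp [hx]))

lemma isNilpotentAlg_iff (s : Set E) :
    IsNilpotentAlg F (NonUnitalAlgebra.adjoin F s) ↔ ∃ N, WNil s (N + 1) := by
  constructor
  · rintro ⟨n, hn1, hn⟩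
    refine ⟨n - 1, ?_⟩
    intro l hl hlen
    exact hn l (fun x hx => NonUnitalAlgebra.subset_adjoin F (hl x hx)) (by omega)
  · rintro ⟨N, hN⟩
    refine ⟨N + 1, by omega, fun l hl hlen => ?_⟩
    have h1 : l.prod ∈ M F s l.length := prod_mem_M _ hl
    have h2 : M F s l.length = ⊥ := by
      rw [eq_bot_iff]
      unfold M
      rw [Submodule.span_le]
      rintro _ ⟨l', hl', hk, rfl⟩
      rw [hlen] at hk
      exact hN.ge hl' hk
    rw [h2, Submodule.mem_bot] at h1
    exact h1

/-! ### The sum of two locally nilpotent ideals -/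

lemma exists_chunks {E : Type v} (k m : ℕ) (l : List E) (hl : l.length = m * k) :
    ∃ L : List (List E), L.length = m ∧ (∀ c ∈ L, c.length = k ∧ ∀ x ∈ c, x ∈ l) ∧
      L.flatten = l := by
  induction m generalizing l with
  | zero =>
    refine ⟨[], rfl, by simp, ?_⟩
    rw [Nat.zero_mul] at hl
    simp [List.length_eq_zero_iff.1 hl]
  | succ m ih =>
    have h1 : (l.drop k).length = m * k := by
      rw [List.length_drop, hl, Nat.succ_mul, Nat.add_sub_cancel]
    obtain ⟨L, h2, h3, h4⟩ := ih (l.drop k) h1
    refine ⟨l.take k :: L, by simp [h2], ?_, ?_⟩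
    · intro c hc
      rcases List.mem_cons.1 hc with rfl | hc
      · refine ⟨?_, fun x hx => List.mem_of_mem_take hx⟩
        rw [List.length_take, hl, Nat.succ_mul]
        omega
      · exact ⟨(h3 c hc).1, fun x hx => List.mem_of_mem_drop ((h3 c hc).2 x hx)⟩
    · rw [List.flatten_cons, h4, List.take_append_drop]

lemma sup_locNil {S : NonUnitalSubalgebra F E} {I J : Submodule F E}
    (hI : IsLocallyNilpotentIdeal F S I) (hJ : IsLocallyNilpotentIdeal F S J) :
    IsLocallyNilpotentIdeal F S (I ⊔ J) := by
  classical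
  obtain ⟨hI0, hI1, hI2⟩ := hI
  obtain ⟨hJ0, hJ1, hJ2⟩ := hJ
  refine ⟨?_, ?_, ?_⟩
  · intro a ha
    obtain ⟨i, hi, j, hj, rfl⟩ := Submodule.mem_sup.1 ha
    exact S.add_mem (hI0 i hi) (hJ0 j hj)
  · intro x hx a ha
    obtain ⟨i, hi, j, hj, rfl⟩ := Submodule.mem_sup.1 ha
    exact ⟨by
      rw [mul_add]
      exact Submodule.add_mem_sup (hI1 x hx i hi).1 (hJ1 x hx j hj).1, by
      rw [add_mul]
      exact Submodule.add_mem_sup (hI1 x hx i hi).2 (hJ1 x hx j hj).2⟩
  · intro s hs
    have hdec : ∀ x : E, ∃ i : E, x ∈ s → i ∈ I ∧ x - i ∈ J := by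
      intro x
      by_cases hx : x ∈ s
      · obtain ⟨i, hi, j, hj, h⟩ := Submodule.mem_sup.1 (hs x hx)
        exact ⟨i, fun _ => ⟨hi, by rw [← h, add_sub_cancel_left]; exact hj⟩⟩
      · exact ⟨0, fun h => absurd h hx⟩
    choose f hf using hdec
    have h1 : ∀ y ∈ s.image f, y ∈ I := by
      intro y hy
      obtain ⟨x, hx, rfl⟩ := Finset.mem_image.1 hy
      exact (hf x hx).1
    obtain ⟨n, hn⟩ := (isNilpotentAlg_iff _).1 (hI2 _ h1)
    have hsS : ∀ x ∈ s, x ∈ S := by
      intro x hx
      have := S.add_mem (hI0 _ (hf x hx).1) (hJ0 _ (hf x hx).2)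
      rwa [add_sub_cancel] at this
    -- words of positive length in `s` are congruent modulo `J` to words in `f s`
    have key : ∀ l : List E, l ≠ [] → (∀ x ∈ l, x ∈ s) →
        l.prod - (l.map f).prod ∈ J ∧ l.prod ∈ S := by
      intro l
      induction l with
      | nil => intro h; exact absurd rfl h
      | cons x l ih =>
        intro _ hl
        have hx := hl x (by simp)
        by_cases hl0 : l = []
        · subst hl0
          simp only [List.prod_cons, List.map_cons, List.prod_nil, List.map_nil, mul_one]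
          exact ⟨(hf x hx).2, hsS x hx⟩
        · obtain ⟨h2, h3⟩ := ih hl0 (fun y hy => hl y (by simp [hy]))
          rw [List.prod_cons, List.map_cons, List.prod_cons]
          refine ⟨?_, S.mul_mem (hsS x hx) h3⟩
          have e : x * l.prod - f x * (l.map f).prod =
              (x - f x) * l.prod + f x * (l.prod - (l.map f).prod) := by
            rw [sub_mul, mul_sub]; abel
          rw [e]
          exact J.add_mem (hJ1 _ h3 _ (hf x hx).2).2 (hJ1 _ (hI0 _ (hf x hx).1) _ h2).1
    have key2 : ∀ l : List E, (∀ x ∈ l, x ∈ s) → l.length = n + 1 → l.prod ∈ J := by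
      intro l hl hlen
      have h2 := (key l (by rintro rfl; simp at hlen) hl).1
      have h3 : (l.map f).prod = 0 := by
        refine hn _ ?_ (by simp [hlen])
        intro y hy
        obtain ⟨x, hx, rfl⟩ := List.mem_map.1 hy
        exact Finset.mem_coe.2 (Finset.mem_image_of_mem _ (hl x hx))
      rwa [h3, sub_zero] at h2
    -- the finite set of values of the words of length n + 1
    let V : (Fin (n + 1) → s) → E := fun w => (List.ofFn fun i => ((w i : s) : E)).prod
    have hV : ∀ w, V w ∈ J := by
      intro w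
      refine key2 _ ?_ (by simp)
      intro x hx
      rw [List.mem_ofFn] at hx
      obtain ⟨i, rfl⟩ := hx
      exact (w i).2
    have h4 : ∀ y ∈ (Finset.univ.image V : Finset E), y ∈ J := by
      intro y hy
      obtain ⟨w, _, rfl⟩ := Finset.mem_image.1 hy
      exact hV w
    obtain ⟨m, hm⟩ := (isNilpotentAlg_iff _).1 (hJ2 _ h4)
    refine (isNilpotentAlg_iff _).2 ⟨(m + 1) * (n + 1) - 1, ?_⟩
    intro l hl hlen
    have hlen' : l.length = (m + 1) * (n + 1) := by
      rw [hlen]
      have : 1 ≤ (m + 1) * (n + 1) := Nat.succ_le_of_lt (by positivity)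
      omega
    obtain ⟨L, hL1, hL2, hL3⟩ := exists_chunks (n + 1) (m + 1) l hlen'
    have h5 : ∀ c ∈ L, c.prod ∈ (Finset.univ.image V : Finset E) := by
      intro c hc
      obtain ⟨hc1, hc2⟩ := hL2 c hc
      have hc3 : ∀ x ∈ c, x ∈ s := fun x hx => hl x (hc2 x hx)
      let w : Fin (n + 1) → s := fun i => ⟨c.get (i.cast hc1.symm), hc3 _ (List.get_mem _ _)⟩
      have h6 : List.ofFn (fun i => ((w i : s) : E)) = c := by
        apply List.ext_getElem
        · simp [hc1]
        · intro i h1 h2
          rw [List.getElem_ofFn]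
          rfl
      have h7 : c.prod = V w := by
        change c.prod = (List.ofFn fun i => ((w i : s) : E)).prod
        rw [h6]
      rw [h7]
      exact Finset.mem_image_of_mem V (Finset.mem_univ w)
    rw [← hL3, List.prod_flatten]
    refine hm (L.map List.prod) ?_ (by simp [hL1])
    intro y hy
    obtain ⟨c, hc, rfl⟩ := List.mem_map.1 hy
    exact h5 c hc

lemma mem_assocRadical {S : NonUnitalSubalgebra F E} {x : E} (hx : x ∈ assocRadical F S) :
    ∃ I : Submodule F E, IsLocallyNilpotentIdeal F S I ∧ x ∈ I := by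
  have hne : {I : Submodule F E | IsLocallyNilpotentIdeal F S I}.Nonempty := by
    refine ⟨⊥, ?_, ?_, ?_⟩
    · intro a ha
      rw [Submodule.mem_bot] at ha
      rw [ha]; exact S.zero_mem
    · intro x _ a ha
      rw [Submodule.mem_bot] at ha
      subst ha
      simp
    · intro s hs
      refine (isNilpotentAlg_iff _).2 ⟨0, ?_⟩
      intro l hl hlen
      cases l with
      | nil => simp at hlen
      | cons a l =>
        have : a ∈ (⊥ : Submodule F E) := hs a (hl a (by simp))
        rw [Submodule.mem_bot] at this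
        rw [List.prod_cons, this, zero_mul]
  unfold assocRadical at hx
  rw [Submodule.mem_sSup_of_directed hne] at hx
  · obtain ⟨I, hI, hxI⟩ := hx
    exact ⟨I, hI, hxI⟩
  · intro I hI J hJ
    exact ⟨I ⊔ J, sup_locNil hI hJ, le_sup_left, le_sup_right⟩

end Words

/-! ### `R_a ∈ L(A^*)` implies `a ∈ L(A)` -/

section Forward

variable {F : Type u} [Field F] {A : Type v} [LieRing A] [LieAlgebra F A]

lemma foldl_lie_add (l : List A) (b c : A) :
    l.foldl (fun z x => ⁅z, x⁆) (b + c) =
      l.foldl (fun z x => ⁅z, x⁆) b + l.foldl (fun z x => ⁅z, x⁆) c := by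
  induction l generalizing b c with
  | nil => rfl
  | cons x l ih => simp only [List.foldl_cons, add_lie, ih]

lemma foldl_lie_neg (l : List A) (b : A) :
    l.foldl (fun z x => ⁅z, x⁆) (-b) = - l.foldl (fun z x => ⁅z, x⁆) b := by
  induction l generalizing b with
  | nil => rfl
  | cons x l ih => simp only [List.foldl_cons, neg_lie, ih]

lemma foldl_lie_zero (l : List A) : l.foldl (fun z x => ⁅z, x⁆) (0 : A) = 0 := by
  induction l with
  | nil => rfl
  | cons x l ih => simp only [List.foldl_cons, zero_lie, ih]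

/-- a Lie ring in which all long left-normed commutators vanish is nilpotent -/
lemma isNilpotent_of_foldl (n : ℕ)
    (h : ∀ (b : A) (l : List A), l.length = n → l.foldl (fun z x => ⁅z, x⁆) b = 0) :
    LieRing.IsNilpotent A := by
  have key : ∀ (k : ℕ) (m : A), m ∈ LieModule.lowerCentralSeries ℤ A A k →
      ∀ l : List A, l.length + k = n → l.foldl (fun z x => ⁅z, x⁆) m = 0 := by
    intro k
    induction k with
    | zero => intro m _ l hl; exact h m l (by simpa using hl)
    | succ k ih =>
      intro m hm l hl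
      rw [LieModule.lowerCentralSeries_succ, ← LieSubmodule.mem_toSubmodule,
        LieSubmodule.lieIdeal_oper_eq_linear_span'] at hm
      induction hm using Submodule.span_induction with
      | mem m hm =>
        obtain ⟨x, _, y, hy, rfl⟩ := hm
        have h1 := ih y hy (x :: l) (by rw [List.length_cons]; omega)
        rw [List.foldl_cons] at h1
        rw [← lie_skew, foldl_lie_neg, h1, neg_zero]
      | zero => exact foldl_lie_zero l
      | add x y _ _ hx hy => rw [foldl_lie_add, hx, hy, add_zero]
      | smul c x _ hx =>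
        have : ∀ (c : ℤ) (b : A), l.foldl (fun z x => ⁅z, x⁆) b = 0 →
            l.foldl (fun z x => ⁅z, x⁆) (c • b) = 0 := by
          intro c b hb
          induction c using Int.induction_on with
          | zero => rw [zero_smul]; exact foldl_lie_zero l
          | succ i ih => rw [add_smul, one_smul, foldl_lie_add, ih, hb, add_zero]
          | pred i ih =>
            rw [sub_smul, one_smul, sub_eq_add_neg, foldl_lie_add, foldl_lie_neg, ih, hb, neg_zero,
              add_zero]
        exact this c x hx
  rw [LieRing.IsNilpotent, LieModule.isNilpotent_iff_int]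
  exact ⟨n, by
    rw [eq_bot_iff]
    intro m hm
    exact key n m hm [] (by simp)⟩

lemma R_add (x y : A) : R F (x + y) = R F x + R F y := LinearMap.ext fun z => lie_add z x y

lemma R_zero : R F (0 : A) = 0 := LinearMap.ext fun z => lie_zero z

lemma R_smul (c : F) (x : A) : R F (c • x) = c • R F x := LinearMap.ext fun z => lie_smul c z x

lemma R_lie (y x : A) : R F ⁅y, x⁆ = R F x * R F y - R F y * R F x := by
  refine LinearMap.ext fun z => ?_
  change ⁅z, ⁅y, x⁆⁆ = ⁅⁅z, y⁆, x⁆ - ⁅⁅z, x⁆, y⁆
  rw [leibniz_lie z y x, ← lie_skew y ⁅z, x⁆, sub_eq_add_neg]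

lemma R_mem (x : A) : R F x ∈ multAlg F A := NonUnitalAlgebra.subset_adjoin F ⟨x, rfl⟩

variable (F A) in
/-- the ideal of all `x` with `R_x ∈ I` -/
def pull (I : Submodule F (Module.End F A)) (hI : IsLocallyNilpotentIdeal F (multAlg F A) I) :
    LieIdeal F A where
  carrier := {x | R F x ∈ I}
  add_mem' := by
    intro x y hx hy
    change R F (x + y) ∈ I
    rw [R_add]; exact I.add_mem hx hy
  zero_mem' := by
    change R F (0 : A) ∈ I
    rw [R_zero]; exact I.zero_mem
  smul_mem' := by
    intro c x hx
    change R F (c • x) ∈ I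
    rw [R_smul]; exact I.smul_mem c hx
  lie_mem := by
    intro y x hx
    change R F ⁅y, x⁆ ∈ I
    rw [R_lie]
    exact I.sub_mem (hI.2.1 _ (R_mem y) _ hx).2 (hI.2.1 _ (R_mem y) _ hx).1

lemma foldl_eq_prod (b : A) (l : List A) :
    l.foldl (fun z x => ⁅z, x⁆) b = (l.map (R F)).reverse.prod b := by
  induction l generalizing b with
  | nil => simp
  | cons x l ih =>
    rw [List.foldl_cons, ih, List.map_cons, List.reverse_cons, List.prod_append,
      List.prod_singleton, Module.End.mul_apply]
    rfl

lemma pull_locNil (I : Submodule F (Module.End F A))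
    (hI : IsLocallyNilpotentIdeal F (multAlg F A) I) :
    IsLocallyNilpotentLie F (pull F A I hI) := by
  classical
  intro s
  have h1 : ∀ y ∈ s.image (fun x : pull F A I hI => R F (x : A)), y ∈ I := by
    intro y hy
    obtain ⟨x, _, rfl⟩ := Finset.mem_image.1 hy
    exact x.2
  obtain ⟨n, _, hn⟩ := hI.2.2 _ h1
  set T := NonUnitalAlgebra.adjoin F
    ((s.image (fun x : pull F A I hI => R F (x : A)) : Finset (Module.End F A)) :
      Set (Module.End F A)) with hT
  -- the elements of the Lie span act by elements of `T`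
  let K : LieSubalgebra F (pull F A I hI) :=
    { carrier := {x | R F (x : A) ∈ T}
      add_mem' := by
        intro x y hx hy
        change R F ((x : A) + (y : A)) ∈ T
        rw [R_add]; exact T.add_mem hx hy
      zero_mem' := by
        change R F (0 : A) ∈ T
        rw [R_zero]; exact T.zero_mem
      smul_mem' := by
        intro c x hx
        change R F (c • (x : A)) ∈ T
        rw [R_smul]; exact SMulMemClass.smul_mem c hx
      lie_mem' := by
        intro y x hy hx
        change R F ⁅(y : A), (x : A)⁆ ∈ T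
        rw [R_lie]
        exact T.sub_mem (T.mul_mem hx hy) (T.mul_mem hy hx) }
  have hK : LieSubalgebra.lieSpan F (pull F A I hI) (s : Set (pull F A I hI)) ≤ K := by
    rw [LieSubalgebra.lieSpan_le]
    intro x hx
    exact NonUnitalAlgebra.subset_adjoin F (Finset.mem_coe.2 (Finset.mem_image_of_mem _ hx))
  refine isNilpotent_of_foldl n ?_
  intro b l hl
  -- transport to `A`
  let ι : LieSubalgebra.lieSpan F (pull F A I hI) (s : Set (pull F A I hI)) → A :=
    fun x => ((x : pull F A I hI) : A)
  have hι : ∀ (l : List (LieSubalgebra.lieSpan F (pull F A I hI) (s : Set (pull F A I hI))))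
      (b : LieSubalgebra.lieSpan F (pull F A I hI) (s : Set (pull F A I hI))),
      ι (l.foldl (fun z x => ⁅z, x⁆) b) = (l.map ι).foldl (fun z x => ⁅z, x⁆) (ι b) := by
    intro l
    induction l with
    | nil => intro b; rfl
    | cons x l ih =>
      intro b
      rw [List.foldl_cons, ih, List.map_cons, List.foldl_cons]
      rfl
  have hinj : ∀ x, ι x = 0 → x = 0 := by
    intro x hx
    exact Subtype.ext (Subtype.ext hx)
  apply hinj
  rw [hι, foldl_eq_prod (F := F)]
  have h3 := hn (((l.map ι).map (R F)).reverse) (by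
    intro y hy
    rw [List.mem_reverse, List.map_map, List.mem_map] at hy
    obtain ⟨x, _, rfl⟩ := hy
    exact hK x.2) (by rw [List.length_reverse, List.length_map, List.length_map, hl])
  rw [h3]
  rfl

/-- a criterion for local nilpotence of an ideal -/
lemma locNil_of (I : LieIdeal F A)
    (h : ∀ s : Finset A, ∃ K : LieSubalgebra F A, (s : Set A) ⊆ K ∧
      ∃ n : ℕ, ∀ b ∈ K, ∀ l : List A, (∀ x ∈ l, x ∈ K) → l.length = n →
        l.foldl (fun z x => ⁅z, x⁆) b = 0) : IsLocallyNilpotentLie F I := by
  classical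
  intro s
  obtain ⟨K, hsK, n, hn⟩ := h (s.image fun x : I => (x : A))
  let K' : LieSubalgebra F I :=
    { carrier := {x | (x : A) ∈ K}
      add_mem' := fun {x y} hx hy => K.add_mem hx hy
      zero_mem' := K.zero_mem
      smul_mem' := fun c x hx => K.smul_mem c hx
      lie_mem' := fun {x y} hx hy => K.lie_mem hx hy }
  have hK : LieSubalgebra.lieSpan F I (s : Set I) ≤ K' := by
    rw [LieSubalgebra.lieSpan_le]
    intro x hx
    exact hsK (Finset.mem_coe.2 (Finset.mem_image_of_mem _ hx))
  refine isNilpotent_of_foldl n ?_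
  intro b l hl
  let ι : LieSubalgebra.lieSpan F I (s : Set I) → A := fun x => ((x : I) : A)
  have hι : ∀ (l : List (LieSubalgebra.lieSpan F I (s : Set I)))
      (b : LieSubalgebra.lieSpan F I (s : Set I)),
      ι (l.foldl (fun z x => ⁅z, x⁆) b) = (l.map ι).foldl (fun z x => ⁅z, x⁆) (ι b) := by
    intro l
    induction l with
    | nil => intro b; rfl
    | cons x l ih =>
      intro b
      rw [List.foldl_cons, ih, List.map_cons, List.foldl_cons]
      rfl
  have hinj : ∀ x, ι x = 0 → x = 0 := by
    intro x hx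
    exact Subtype.ext (Subtype.ext hx)
  apply hinj
  rw [hι]
  refine hn _ (hK b.2) _ ?_ (by rw [List.length_map, hl])
  intro x hx
  obtain ⟨y, _, rfl⟩ := List.mem_map.1 hx
  exact hK y.2

theorem mem_lieRadical_of (a : A) (h : InRadicalOfMultAlg F a) : a ∈ lieRadical F A := by
  obtain ⟨I, hI, ha⟩ := mem_assocRadical h
  have h1 : pull F A I hI ≤ lieRadical F A := le_sSup (pull_locNil I hI)
  exact h1 ha

end Forward

/-! ### The example -/

section Example

variable (F : Type u) [Field F]

/-- The Lie algebra `F ⋉ F[X]`, where `F[X]` is abelian and `1` acts by `p ↦ (p - p(0)) / X`. -/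
@[ext] structure Ex : Type u where
  t : F
  p : Polynomial F

namespace Ex

variable {F}

noncomputable instance : Zero (Ex F) := ⟨⟨0, 0⟩⟩
noncomputable instance : Add (Ex F) := ⟨fun x y => ⟨x.t + y.t, x.p + y.p⟩⟩
noncomputable instance : Neg (Ex F) := ⟨fun x => ⟨-x.t, -x.p⟩⟩
noncomputable instance : SMul F (Ex F) := ⟨fun c x => ⟨c * x.t, c • x.p⟩⟩

@[simp] lemma zero_t : (0 : Ex F).t = 0 := rfl
@[simp] lemma zero_p : (0 : Ex F).p = 0 := rfl
@[simp] lemma add_t (x y : Ex F) : (x + y).t = x.t + y.t := rfl
@[simp] lemma add_p (x y : Ex F) : (x + y).p = x.p + y.p := rfl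
@[simp] lemma neg_t (x : Ex F) : (-x).t = -x.t := rfl
@[simp] lemma neg_p (x : Ex F) : (-x).p = -x.p := rfl
@[simp] lemma smul_t (c : F) (x : Ex F) : (c • x).t = c * x.t := rfl
@[simp] lemma smul_p (c : F) (x : Ex F) : (c • x).p = c • x.p := rfl

noncomputable instance : AddCommGroup (Ex F) where
  add_assoc x y z := by ext1 <;> simp [add_assoc]
  zero_add x := by ext1 <;> simp
  add_zero x := by ext1 <;> simp
  add_comm x y := by ext1 <;> simp [add_comm]
  neg_add_cancel x := by ext1 <;> simp
  nsmul := nsmulRec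
  zsmul := zsmulRec

noncomputable instance : Module F (Ex F) where
  one_smul x := by ext1 <;> simp
  mul_smul a b x := by ext1 <;> simp [mul_assoc, mul_smul]
  smul_zero a := by ext1 <;> simp
  smul_add a x y := by ext1 <;> simp [mul_add]
  add_smul a b x := by ext1 <;> simp [add_mul, add_smul]
  zero_smul x := by ext1 <;> simp

/-- the operator `p ↦ (p - p(0)) / X` -/
noncomputable def D : Polynomial F →ₗ[F] Polynomial F where
  toFun := Polynomial.divX
  map_add' _ _ := Polynomial.divX_add
  map_smul' c p := by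
    ext n
    simp [Polynomial.coeff_divX]

lemma coeff_D (p : Polynomial F) (n : ℕ) : (D p).coeff n = p.coeff (n + 1) :=
  Polynomial.coeff_divX

noncomputable instance : LieRing (Ex F) where
  bracket x y := ⟨0, x.t • D y.p - y.t • D x.p⟩
  add_lie x y z := by
    ext1
    · change (0 : F) = 0 + 0; simp
    · change (x + y).t • D z.p - z.t • D (x + y).p = 
        (x.t • D z.p - z.t • D x.p) + (y.t • D z.p - z.t • D y.p)
      simp only [add_t, add_p, map_add, add_smul, smul_add]
      abel
  lie_add x y z := by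
    ext1
    · change (0 : F) = 0 + 0; simp
    · change x.t • D (y + z).p - (y + z).t • D x.p = 
        (x.t • D y.p - y.t • D x.p) + (x.t • D z.p - z.t • D x.p)
      simp only [add_t, add_p, map_add, add_smul, smul_add]
      abel
  lie_self x := by
    ext1
    · rfl
    · change x.t • D x.p - x.t • D x.p = 0
      rw [sub_self]
  leibniz_lie x y z := by
    ext1
    · change (0 : F) = 0 + 0; simp
    · change x.t • D (y.t • D z.p - z.t • D y.p) - (0 : F) • D x.p =
        ((0 : F) • D z.p - z.t • D (x.t • D y.p - y.t • D x.p)) +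
          (y.t • D (x.t • D z.p - z.t • D x.p) - (0 : F) • D y.p)
      simp only [map_sub, map_smul, smul_sub, smul_smul, zero_smul]
      rw [mul_comm x.t y.t, mul_comm z.t x.t, mul_comm z.t y.t]
      abel

lemma lie_t (x y : Ex F) : ⁅x, y⁆.t = 0 := rfl
lemma lie_p (x y : Ex F) : ⁅x, y⁆.p = x.t • D y.p - y.t • D x.p := rfl

noncomputable instance : LieAlgebra F (Ex F) where
  lie_smul c x y := by
    ext1
    · simp [lie_t]
    · simp only [lie_p, smul_p, smul_t, map_smul, smul_sub, smul_smul]
      rw [mul_comm x.t c]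

/-- `x` lies in the abelian ideal and its coefficients of index `≥ k` vanish -/
def Low (k : ℕ) (x : Ex F) : Prop := x.t = 0 ∧ ∀ n, k ≤ n → x.p.coeff n = 0

lemma low_lie {k : ℕ} {x : Ex F} (hx : Low (k + 1) x) (y : Ex F) : Low k ⁅x, y⁆ := by
  refine ⟨rfl, fun n hn => ?_⟩
  rw [lie_p, hx.1, zero_smul, zero_sub, Polynomial.coeff_neg, Polynomial.coeff_smul, coeff_D,
    hx.2 (n + 1) (by omega), smul_zero, neg_zero]

lemma low_zero {x : Ex F} (hx : Low 0 x) : x = 0 := by
  ext1
  · exact hx.1
  · ext n
    rw [hx.2 n (Nat.zero_le n)]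
    simp

lemma low_foldl (k : ℕ) (x : Ex F) (hx : Low k x) (l : List (Ex F)) (hl : l.length = k) :
    l.foldl (fun z x => ⁅z, x⁆) x = 0 := by
  induction k generalizing x l with
  | zero =>
    rw [List.length_eq_zero_iff.1 hl]
    exact low_zero hx
  | succ k ih =>
    cases l with
    | nil => simp at hl
    | cons y l =>
      rw [List.foldl_cons]
      exact ih _ (low_lie hx y) l (by simpa using hl)

lemma low_iterate (k : ℕ) (x y : Ex F) (hx : Low k x) :
    (fun z : Ex F => ⁅z, y⁆)^[k] x = 0 := by
  induction k generalizing x with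
  | zero => exact low_zero hx
  | succ k ih =>
    rw [Function.iterate_succ_apply]
    exact ih _ (low_lie hx y)

lemma exists_low (x y : Ex F) : ∃ k, Low k ⁅x, y⁆ := by
  refine ⟨⁅x, y⁆.p.natDegree + 1, rfl, fun n hn => ?_⟩
  exact Polynomial.coeff_eq_zero_of_natDegree_lt (by omega)

theorem isEngel : IsEngel (Ex F) := by
  intro x y
  obtain ⟨k, hk⟩ := exists_low y x
  refine ⟨k + 1, by omega, ?_⟩
  rw [Function.iterate_succ_apply]
  exact low_iterate k _ x hk

/-- the subalgebra of all `(t, p)` with `deg p < N` -/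
noncomputable def bdd (N : ℕ) : LieSubalgebra F (Ex F) where
  carrier := {x | ∀ n, N ≤ n → x.p.coeff n = 0}
  add_mem' := by
    intro x y hx hy n hn
    rw [add_p, Polynomial.coeff_add, hx n hn, hy n hn, add_zero]
  zero_mem' := by intro n _; simp
  smul_mem' := by
    intro c x hx n hn
    rw [smul_p, Polynomial.coeff_smul, hx n hn, smul_zero]
  lie_mem' := by
    intro x y hx hy n hn
    rw [lie_p, Polynomial.coeff_sub, Polynomial.coeff_smul, Polynomial.coeff_smul, coeff_D,
      coeff_D, hx (n + 1) (by omega), hy (n + 1) (by omega), smul_zero, smul_zero, sub_zero]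

theorem locNil : IsLocallyNilpotentLie F (⊤ : LieIdeal F (Ex F)) := by
  apply locNil_of
  intro s
  refine ⟨bdd (s.sup fun x => x.p.natDegree + 1), ?_,
    (s.sup fun x => x.p.natDegree + 1) + 1, ?_⟩
  · intro x hx n hn
    apply Polynomial.coeff_eq_zero_of_natDegree_lt
    have := Finset.le_sup (f := fun x : Ex F => x.p.natDegree + 1) hx
    omega
  · intro b hb l hl hlen
    cases l with
    | nil => simp at hlen
    | cons y l =>
      rw [List.foldl_cons]
      refine low_foldl _ _ ⟨rfl, ?_⟩ _ (by simpa using hlen)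
      exact (bdd (F := F) _).lie_mem hb (hl y (by simp))

/-- The element `(1, 0)`. -/
noncomputable def a : Ex F := ⟨1, 0⟩

lemma R_a_pow (n : ℕ) (p : Polynomial F) :
    ((R F (a : Ex F)) ^ n) ⟨0, p⟩ = ⟨0, (-1 : F) ^ n • (D ^ n) p⟩ := by
  induction n with
  | zero => simp
  | succ n ih =>
    rw [pow_succ', Module.End.mul_apply, ih]
    change ⁅(⟨0, (-1 : F) ^ n • (D ^ n) p⟩ : Ex F), a⁆ = _
    ext1
    · rfl
    · rw [lie_p]
      change (0 : F) • D (0 : Polynomial F) - (1 : F) • D ((-1 : F) ^ n • (D ^ n) p) = _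
      rw [zero_smul, one_smul, zero_sub, map_smul, pow_succ' (D : Polynomial F →ₗ[F] _),
        Module.End.mul_apply, pow_succ (-1 : F), mul_neg_one, neg_smul]

lemma D_pow_coeff (n k : ℕ) (p : Polynomial F) : ((D ^ n) p).coeff k = p.coeff (k + n) := by
  induction n generalizing k with
  | zero => simp
  | succ n ih =>
    rw [pow_succ', Module.End.mul_apply, coeff_D, ih]
    congr 1
    omega

lemma R_a_pow_ne (n : ℕ) : (R F (a : Ex F)) ^ n ≠ 0 := by
  intro h
  have h1 := R_a_pow n (Polynomial.X ^ n : Polynomial F)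
  rw [h, LinearMap.zero_apply] at h1
  have h2 := congrArg (fun x : Ex F => x.p.coeff 0) h1
  simp only [zero_p, Polynomial.coeff_zero, Polynomial.coeff_smul, D_pow_coeff,
    Polynomial.coeff_X_pow, zero_add, if_true, smul_eq_mul, mul_one] at h2
  exact pow_ne_zero n (neg_ne_zero.2 one_ne_zero) h2.symm

theorem not_mem : ¬ InRadicalOfMultAlg F (a : Ex F) := by
  intro h
  obtain ⟨I, hI, ha⟩ := mem_assocRadical h
  obtain ⟨n, _, hn⟩ := hI.2.2 {R F (a : Ex F)} (by simpa using ha)
  have h1 := hn (List.replicate n (R F (a : Ex F))) (by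
      intro x hx
      rw [List.eq_of_mem_replicate hx]
      exact NonUnitalAlgebra.subset_adjoin F (by simp)) (by simp)
  rw [List.prod_replicate] at h1
  exact R_a_pow_ne _ h1

end Ex

end Example

/-- Let `F` be a field. (1) In every Lie algebra `A` over `F`, `R_a ∈ L(A^*)` implies `a ∈ L(A)`.
(2) There is an Engel Lie algebra `A` over `F`, even a metabelian one with `L(A) = A`, that has an
element `a` with `R_a ∉ L(A^*)`. So the equivalence `a ∈ L(A) ↔ R_a ∈ L(A^*)` fails for Engel Lie
algebras over every field. -/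
theorem result (F : Type u) [Field F] :
    (∀ (A : Type u) [LieRing A] [LieAlgebra F A] (a : A),
      InRadicalOfMultAlg F a → a ∈ lieRadical F A) ∧
    (∃ (A : Type u) (_ : LieRing A) (_ : LieAlgebra F A),
      IsEngel A ∧ (∀ x y z w : A, ⁅⁅x, y⁆, ⁅z, w⁆⁆ = 0) ∧ lieRadical F A = ⊤ ∧
        ∃ a : A, a ∈ lieRadical F A ∧ ¬ InRadicalOfMultAlg F a) := by
  refine ⟨fun A _ _ a h => mem_lieRadical_of a h, ?_⟩
  have htop : lieRadical F (Ex F) = ⊤ := top_le_iff.1 (le_sSup Ex.locNil)
  refine ⟨Ex F, inferInstance, inferInstance, Ex.isEngel, ?_, htop, Ex.a, ?_, Ex.not_mem⟩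
  · intro x y z w
    ext1
    · rfl
    · rw [Ex.lie_p, Ex.lie_t, Ex.lie_t, zero_smul, zero_smul, sub_zero]
      rfl
  · rw [htop]; trivial

end Pool.Agent.Results.MP_2c0ed3_al.EngelRadical
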